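import Pool.Agent.Run7.h90.Ham.Final

/-!
# Listing sequences in nilpotent groups of class at most two

Every finite nilpotent group `G` of class at most two has a listing sequence over every nonempty
symmetric generating set `S`; in other words, `Cay(G, S)` has a Hamiltonian path. More generally this
holds if `G` has subgroups `N_0 ≤ N_1 ≤ ⋯ ≤ N_k = G`, each of which is normal in the next one, such that
`Cay(G, S)` has a path which visits exactly the elements of `N_0` (for instance `N_0 = 1`), `N_i` is
generated by `S ∩ N_i` for `i ≥ 1`, and `N_{i+1} / N_i` is nilpotent of class at most two.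

Idea of the proof (for class two). Let `a ∈ S`, let `H` be generated by the other elements of `S`, `a ∉ H`,
and let `E = E⁻¹` be the set of the end points of the Hamiltonian paths of `H` which start at `1`. A
Hamiltonian path of `G` is obtained from `e_1, e_2, … ∈ E` and signs `ε_i` such that the products
`(e_1 a^{ε_1}) ⋯ (e_j a^{ε_j})` represent every left coset of `H` once.

(1) For `e ∈ E` put `t = [e, a]`. The elements `α = e a` and `β = e⁻¹ a⁻¹` commute, as `α β = t` is
central; so they generate an abelian group, and a Hamiltonian path of its Cayley digraph modulo `H`,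
`(α^{m-1} β)^{q-1} α^{m-1}`, visits the cosets in `⟨a, t⟩ H`.

(2) If `C` is a central subgroup and the cosets in `⟨a, C⟩ H` are visited by some sequence whose
elements `e_i` satisfy `[e_i, a] ∈ C`, let `e ∈ E` and `τ = [e, a]`. Repeat this sequence, inserting
between two copies the factor `e a` and replacing the first element `e_1` of the next copy by `e⁻¹`. As
`e a e⁻¹ = τ a` each copy visits the translate by `τ` of the cosets visited by the one before. So all
cosets in `⟨a, C, τ⟩ H` are visited.

(3) If `E` generates `H`, then (1) and (2) give a Hamiltonian path of `G`, whose last element `e` can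
be chosen freely in `E`. The set `E_G` of the end points for `G` generates `G`: by the choice of `e` and
since every `a ∈ S` can be used, `E_G` generates a subgroup containing all squares of the elements of
`S` (if `|S| ≥ 2`). If it is proper, take a character `χ` of order two trivial on `E_G`. It has a
constant value on `E` for each `a`, and by counting the factors `χ (a) = 1` if the number of cosets of
`H` is even; if it is odd then `χ` is trivial on `H`, hence on `G`.
-/

set_option autoImplicit false

namespace Pool.Agent.Results.MP_688fd0_co.ClassTwo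

open scoped commutatorElement
open Pool.Agent.Run7.h90.Ham

universe u

/-- `Cay(G, S)` has a path which visits exactly the elements of `N`. -/
def HasPath {G : Type u} [Group G] (S : Set G) (N : Subgroup G) : Prop :=
  ∃ p : List G, p.Nodup ∧ (∀ g, g ∈ p ↔ g ∈ N) ∧ p.IsChain (fun g h => g⁻¹ * h ∈ S)

lemma rel_step {G : Type u} [Group G] [Finite G] {S : Set G} (hS : ∀ x ∈ S, x⁻¹ ∈ S)
    {N L : Subgroup G} (hNL : N ≤ L) (hnorm : ∀ x ∈ L, ∀ n ∈ N, x * n * x⁻¹ ∈ N)
    (hgen : Subgroup.closure (S ∩ L) = L) (hcl : ∀ x ∈ L, ∀ y ∈ L, ∀ z ∈ L, ⁅⁅x, y⁆, z⁆ ∈ N)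
    (hp : HasPath S N) : HasPath S L := by
  classical
  let S' : Set ↥L := {x | (x : G) ∈ S}
  have hS' : ∀ x ∈ S', x⁻¹ ∈ S' := fun x hx => hS _ hx
  have hgen' : Subgroup.closure S' = ⊤ := by
    apply Subgroup.map_injective L.subtype_injective
    rw [MonoidHom.map_closure, ← MonoidHom.range_eq_map, Subgroup.range_subtype]
    convert hgen using 2
    ext x
    constructor
    · rintro ⟨y, hy, rfl⟩
      exact ⟨hy, y.2⟩
    · rintro ⟨hx, hx'⟩
      exact ⟨⟨x, hx'⟩, hx, rfl⟩
  have hN : (N.subgroupOf L).Normal := by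
    refine ⟨fun n hn g => ?_⟩
    rw [Subgroup.mem_subgroupOf] at hn ⊢
    exact hnorm g g.2 n hn
  obtain ⟨p, p1, p2, p3⟩ := hp
  have hpL : ∀ g ∈ p, g ∈ L := fun g hg => hNL ((p2 g).1 hg)
  lift p to List ↥L using hpL
  obtain ⟨y, q, q1, q2, q3, -, -⟩ := exists_path (S := S') (N := N.subgroupOf L) hS' hgen'
    (fun x y z => by
      rw [Subgroup.mem_subgroupOf]
      exact hcl x x.2 y y.2 z z.2)
    ⟨p, List.Nodup.of_map _ p1, fun g => by
      rw [Subgroup.mem_subgroupOf, ← p2]
      constructor
      · intro hg
        exact List.mem_map.2 ⟨g, hg, rfl⟩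
      · intro hg
        obtain ⟨g', hg', h⟩ := List.mem_map.1 hg
        rwa [← Subtype.ext h], by
      rw [List.isChain_map] at p3
      exact p3⟩
  refine ⟨q.map (fun x : ↥L => (x : G)), q1.map Subtype.val_injective, fun g => ?_, ?_⟩
  · rw [List.mem_map]
    constructor
    · rintro ⟨x, -, rfl⟩
      exact x.2
    · intro hg
      exact ⟨⟨g, hg⟩, (q2 _).2 trivial, rfl⟩
  · rw [List.isChain_map]
    exact q3

/-- Let `G` be a finite group, `S ≠ ∅` a symmetric generating set, and `N 0 ≤ N 1 ≤ ⋯ ≤ N k = G`
subgroups such that `N i` is normal in `N (i + 1)`, `N (i + 1)` is generated by `S ∩ N (i + 1)`,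
`[[x, y], z] ∈ N i` for all `x, y, z ∈ N (i + 1)`, and there is a path in `Cay(G, S)` which visits
exactly the elements of `N 0`. Then there are `a_1, …, a_n ∈ S`, `n = |G|`, whose partial products
`a_1, a_1 a_2, …, a_1 ⋯ a_n` are pairwise distinct. (For `k = 1`, `N 0 = 1`: this holds for all
nilpotent groups of class at most two.) -/
theorem result {G : Type u} [Group G] [Finite G] (S : Set G) (hne : S.Nonempty)
    (hS : ∀ x ∈ S, x⁻¹ ∈ S) (k : ℕ) (N : ℕ → Subgroup G)
    (h0 : HasPath S (N 0)) (hk : N k = ⊤) (hle : ∀ i < k, N i ≤ N (i + 1))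
    (hnorm : ∀ i < k, ∀ x ∈ N (i + 1), ∀ n ∈ N i, x * n * x⁻¹ ∈ N i)
    (hgen : ∀ i < k, Subgroup.closure (S ∩ N (i + 1)) = N (i + 1))
    (hcl : ∀ i < k, ∀ x ∈ N (i + 1), ∀ y ∈ N (i + 1), ∀ z ∈ N (i + 1), ⁅⁅x, y⁆, z⁆ ∈ N i) :
    ∃ a : Fin (Nat.card G) → G, (∀ i, a i ∈ S) ∧
      Function.Injective (fun k : Fin (Nat.card G) => ((List.ofFn a).take (k.val + 1)).prod) := by
  have h : ∀ i ≤ k, HasPath S (N i) := by
    intro i
    induction i with
    | zero => intro _; exact h0
    | succ i ih =>
      intro hi
      exact rel_step hS (hle i hi) (hnorm i hi) (hgen i hi) (hcl i hi) (ih (by omega))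
  obtain ⟨p, p1, p2, p3⟩ := h k le_rfl
  have hp0 : p ≠ [] := by
    rintro rfl
    exact absurd ((p2 1).2 (N k).one_mem) (by simp)
  refine listing hne (x := p.head hp0) (y := p.getLast hp0)
    ⟨p, p1, fun g => ?_, p3, List.head?_eq_some_head hp0, List.getLast?_eq_some_getLast hp0⟩
  rw [p2, hk]
  exact ⟨fun _ => trivial, fun _ => trivial⟩

end Pool.Agent.Results.MP_688fd0_co.ClassTwo
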