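import Pool.Agent.Run7.h952.LH.Sub

/-!
# Closed listing sequences from a subgroup and an involution

Let `A` be a symmetric subset of the finite group `G` which contains all elements `≠ 1` of a
subgroup `H` with at least four elements, and an involution `a`. If `H` and `a` generate `G` then `A`
has a closed listing sequence. More generally this holds if `G` is generated by `H`, `a` and elements
which can be carried along in the sense of the starting theorem `LiftFromSubgroup`.

For `|H| = 3` this is the question for the groups generated by an involution and an element of order
three, which is open (Glover and Marušič have results).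

Idea of the proof. Let `X` be the multigraph with the left cosets of `H` as vertices and the pairs
`{x, x a}` as edges between `x H` and `x a H`. The group acts on it, transitively on the arcs.

(1) (Mader) Every edge cut of `X` has at least `|H|` edges. Take a set `Y` of cosets whose cut is as
small as possible and then `|Y|` as small as possible. Each translate `g Y` is `Y` or disjoint
from `Y`. So there cannot be an edge inside `Y` and another one which leaves `Y`: a translation
which maps the first to the second would map `Y` to `Y`. As the graph is connected all edges at `Y` leave
`Y`; these are `|Y| |H|` edges.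

(2) (Jaeger) As all cuts have at least four edges there are two disjoint edge sets which are
connected and spanning (theorem of Nash-Williams and Tutte, here from the starting library of
Helper879); a set of edges with even degrees can be found which contains one of them. It has an Euler
tour.

(3) Each dart of the tour is a step `x, x a` in `G`. The end of a dart and the start of the next one
lie in the same coset of `H` and are different. As all elements `≠ 1` of `H` are in `A` one can go from one
to the other, at the first passage through each coset via all elements of the coset which are not
used by the tour.
-/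

set_option autoImplicit false

namespace Pool.Agent.Results.MP_688fd0_co.CliqueAndInvolution

/-- Let `G` be a finite group, `B ⊆ A` symmetric subsets, `H` a subgroup with at least four elements,
all of them but `1` in `B`, and `a ∈ B` an element of order two. Suppose that `B` generates the same
subgroup `K` as `H` and `a`, and that `G` is generated by `B` and the elements `c` such that

* `h⁻¹ c h ∈ A` for all `h ∈ K`, or
* `c ∈ A` and `c⁻¹ B c = B`

(there is no condition on such elements if `K = G`). Then there are `s_0, …, s_{n-1} ∈ A`, `n = |G|`,
whose partial products `s_0, s_0 s_1, …, s_0 ⋯ s_{n-1}` are pairwise distinct, so they are all the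
elements of `G`, and the last of which is `1`. -/
theorem result {G : Type} [Group G] [Finite G] (A B : Set G) (hA : ∀ x ∈ A, x⁻¹ ∈ A)
    (hB : ∀ x ∈ B, x⁻¹ ∈ B) (hBA : B ⊆ A) (H : Subgroup G) (hH : 4 ≤ Nat.card H)
    (hHB : ∀ h ∈ H, h ≠ 1 → h ∈ B) (a : G) (haB : a ∈ B) (ha1 : a ≠ 1) (ha2 : a * a = 1)
    (hcl : Subgroup.closure B = Subgroup.closure ((H : Set G) ∪ {a}))
    (hgen : Subgroup.closure (B ∪ {c | (∀ h ∈ Subgroup.closure B, h⁻¹ * c * h ∈ A) ∨
      (c ∈ A ∧ ∀ s, s ∈ B ↔ c⁻¹ * s * c ∈ B)}) = ⊤) :
    ∃ s : Fin (Nat.card G) → G, (∀ i, s i ∈ A) ∧
      Function.Injective (fun k : Fin (Nat.card G) => ((List.ofFn s).take (k.val + 1)).prod) ∧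
      (List.ofFn s).prod = 1 :=
  Run7.h952.LH.main A B hA hB hBA H hH hHB a haB ha1 ha2 hcl hgen

end Pool.Agent.Results.MP_688fd0_co.CliqueAndInvolution
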