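import Pool.Agent.Run7.h251.HT.Steps

/-!
# Listing sequences along normal series with mixed factors

Let `G` be a finite group, `S ≠ ∅` a symmetric subset and `N_0 ≤ N_1 ≤ ⋯ ≤ N_k = G` subgroups such that
`N_i` is normal in `N_{i+1}`, `N_{i+1}` is generated by `S ∩ N_{i+1}` and `Cay(G, S)` has a path which
visits exactly the elements of `N_0` (for instance `N_0 = 1`). Each of the factors `L / N`,
`L = N_{i+1}`, `N = N_i`, may be of any of the following kinds (`Step`). Then `Cay(G, S)` has a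
Hamiltonian path, i.e. there is a listing sequence.

1. `L / N` is nilpotent of class at most two.

2. `L` has a subgroup `A ≥ N` of index two such that, modulo `N`, the group generated by `S ∩ A` is
normal in `A`, its conjugates in `L` generate an abelian group and this group contains the commutators
of `A`. (All this holds if `A / N` is abelian; in general `A / N` is only metabelian.)

3. `L` has a normal subgroup `A ≥ N` of index three with `A / N` abelian, with a condition on one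
element of `S`.

4. `L` has a normal subgroup `A ≥ N` with `A / N` abelian and `S ∩ L ⊆ N ∪ A z ∪ A z⁻¹` for some
`z ∈ S ∩ L`, and one of the following holds: `[L : A] ≤ 4`; `A / N` is generated by four elements;
for every `d ∈ A` with `d z ∈ S` the conjugate of `d` by `z⁴` is contained in the group generated by
`N` and the conjugates of `d` by `1, z, z², z³`. Here `[L : A]` and the ranks are arbitrary.

The second part of the theorem is a special case of 4: all finite nilpotent groups of class at most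
four which have an abelian normal subgroup `A` with `S ⊆ A z ∪ A z⁻¹`.

The steps 1 and 3 and step 2 for abelian `A / N` were known in the form of theorems with one or several
steps of the same kind (`ClassTwo` by helper90, `AbelianSmallIndex` in the starting files). The steps 2
and 4 are deduced from the theorems `main` and `main3` of the library `Pool.Agent.N47.CG` of helper47 in
the starting files, which are not contained in a starting result; here they are made relative to a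
subgroup `N` with a path (step 2) and to subgroups `L`.
-/

set_option autoImplicit false

namespace Pool.Agent.Results.MP_688fd0_co.MixedTowers

open scoped commutatorElement

universe u

/-- `Cay(G, S)` has a path which visits exactly the elements of `N`. -/
def HasPath {G : Type u} [Group G] (S : Set G) (N : Subgroup G) : Prop :=
  ∃ p : List G, p.Nodup ∧ (∀ g, g ∈ p ↔ g ∈ N) ∧ p.IsChain (fun g h => g⁻¹ * h ∈ S)

/-- `N ≤ A ≤ L`, `A` is normalised by `L` and `A / N` is abelian. -/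
def AbelianSection {G : Type u} [Group G] (N A L : Subgroup G) : Prop :=
  N ≤ A ∧ A ≤ L ∧ (∀ x ∈ L, ∀ a ∈ A, x * a * x⁻¹ ∈ A) ∧ ∀ a ∈ A, ∀ b ∈ A, a * b * a⁻¹ * b⁻¹ ∈ N

/-- The admissible factors `L / N` of the series. -/
inductive Step {G : Type u} [Group G] (S : Set G) (N L : Subgroup G) : Prop
  /-- the factor is nilpotent of class at most two -/
  | classTwo (h : N ≤ L) (hcl : ∀ x ∈ L, ∀ y ∈ L, ∀ z ∈ L, ⁅⁅x, y⁆, z⁆ ∈ N)
  /-- a subgroup `A` of index two; modulo `N` the group generated by `S ∩ A` is normal in `A`, its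
  conjugates generate an abelian group, which contains the commutators of `A` -/
  | indexTwo (A : Subgroup G) (hNA : N ≤ A) (hAL : A ≤ L) (h2 : A.relIndex L = 2)
      (h1 : ∀ a ∈ A, ∀ h ∈ S ∩ A, a * h * a⁻¹ ∈ N ⊔ Subgroup.closure (S ∩ A))
      (hc : ∀ g ∈ L, ∀ a ∈ S ∩ A, ∀ b ∈ S ∩ A,
        a * (g * b * g⁻¹) * a⁻¹ * (g * b * g⁻¹)⁻¹ ∈ N)
      (hcom : ∀ a ∈ A, ∀ b ∈ A, a * b * a⁻¹ * b⁻¹ ∈
        N ⊔ Subgroup.closure {y | ∃ g ∈ L, ∃ x ∈ S ∩ A, y = g * x * g⁻¹})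
  /-- an abelian normal subgroup of index three, with the condition of the starting result -/
  | indexThree (A : Subgroup G) (hA : AbelianSection N A L) (h3 : A.relIndex L = 3) (z : G)
      (hz : z ∈ S) (hzL : z ∈ L) (hzA : z ∉ A)
      (h : (S ∩ L ⊆ (N ⊔ Subgroup.zpowers z : Subgroup G)) ∨
        ∃ s ∈ S ∩ L, s ∉ N ⊔ Subgroup.zpowers z ∧
          (s ∉ A ∨ (∀ m : ℕ, s ^ m ∈ N ⊔ Subgroup.zpowers z → Even m) ∨
            z * s * z⁻¹ * s⁻¹ ∈ N ⊔ Subgroup.zpowers z ∨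
            ∃ i j : ℤ, (z ^ 3)⁻¹ *
              (s ^ i * (s * (z * s * z⁻¹) * (z ^ 2 * s * (z ^ 2)⁻¹) * z ^ 3) ^ j) ∈ N))
  /-- the generators are in `N`, `A z` or `A z⁻¹`, `A / N` an abelian normal subgroup of arbitrary
  index, and a condition of degree four holds -/
  | twoCosets (A : Subgroup G) (hA : AbelianSection N A L) (z : G) (hz : z ∈ S) (hzL : z ∈ L)
      (hcos : ∀ s ∈ S ∩ L, s ∈ N ∨ s * z⁻¹ ∈ A ∨ s * z ∈ A)
      (h : A.relIndex L ≤ 4 ∨
        (∃ T : Finset G, T.card ≤ 4 ∧ A = N ⊔ Subgroup.closure (T : Set G)) ∨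
        ∀ d ∈ A, d * z ∈ S → z ^ 4 * d * (z ^ 4)⁻¹ ∈
          N ⊔ Subgroup.closure {x | ∃ i : ℕ, i < 4 ∧ x = z ^ i * d * (z ^ i)⁻¹})

lemma step_path {G : Type u} [Group G] [Finite G] {S : Set G} (hS : ∀ x ∈ S, x⁻¹ ∈ S)
    {N L : Subgroup G} (hnorm : ∀ x ∈ L, ∀ n ∈ N, x * n * x⁻¹ ∈ N)
    (hgen : Subgroup.closure (S ∩ L) = L) (h : Step S N L) (hp : HasPath S N) : HasPath S L := by
  rcases h with ⟨hNL, hcl⟩ | ⟨A, hNA, hAL, h2, h1, hc, hcom⟩ | ⟨A, hA, h3, z, hz, hzL, hzA, h⟩ |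
    ⟨A, hA, z, hz, hzL, hcos, h⟩
  · exact Run7.h251.HT.step_class_two hS hNL hnorm hgen hcl hp
  · exact Run7.h251.HT.step_two hS hNA hAL hnorm hgen h2 h1 hc hcom hp
  · exact Run7.h251.HT.step_three hS ⟨hA.1, hA.2.1, hA.2.2.1, hA.2.2.2⟩ hnorm hgen h3 hz hzL hzA h hp
  · exact Run7.h251.HT.step_cosets hS ⟨hA.1, hA.2.1, hA.2.2.1, hA.2.2.2⟩ hnorm hgen hz hzL hcos h hp

/-- in an abelian normal subgroup the fourth commutator with `z` gives a relation of degree four -/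
lemma deg_of_comm {G : Type u} [Group G] {A : Subgroup G} (hn : ∀ x : G, ∀ a ∈ A, x * a * x⁻¹ ∈ A)
    (hcom : ∀ a ∈ A, ∀ b ∈ A, a * b = b * a) {z d : G} (hd : d ∈ A)
    (h : ⁅z, ⁅z, ⁅z, ⁅z, d⁆⁆⁆⁆ = 1) :
    z ^ 4 * d * (z ^ 4)⁻¹ ∈
      Subgroup.closure {x | ∃ i : ℕ, i < 4 ∧ x = z ^ i * d * (z ^ i)⁻¹} := by
  set W := Subgroup.closure {x | ∃ i : ℕ, i < 4 ∧ x = z ^ i * d * (z ^ i)⁻¹} with hW
  have hmem : ∀ i : ℕ, i < 4 → z ^ i * d * (z ^ i)⁻¹ ∈ W := fun i hi =>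
    Subgroup.subset_closure ⟨i, hi, rfl⟩
  -- conjugates
  obtain ⟨d0, h0⟩ : ∃ x, x = d := ⟨_, rfl⟩
  obtain ⟨d1, h1⟩ : ∃ x, x = z * d * z⁻¹ := ⟨_, rfl⟩
  obtain ⟨d2, h2⟩ : ∃ x, x = z * d1 * z⁻¹ := ⟨_, rfl⟩
  obtain ⟨d3, h3⟩ : ∃ x, x = z * d2 * z⁻¹ := ⟨_, rfl⟩
  obtain ⟨d4, h4⟩ : ∃ x, x = z * d3 * z⁻¹ := ⟨_, rfl⟩
  have a0 : d ∈ A := hd
  have a1 : d1 ∈ A := by rw [h1]; exact hn z d hd
  have a2 : d2 ∈ A := by rw [h2]; exact hn z d1 a1
  have a3 : d3 ∈ A := by rw [h3]; exact hn z d2 a2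
  have a4 : d4 ∈ A := by rw [h4]; exact hn z d3 a3
  have e1 : d1 = z ^ 1 * d * (z ^ 1)⁻¹ := by rw [h1, pow_one]
  have e2 : d2 = z ^ 2 * d * (z ^ 2)⁻¹ := by
    rw [h2, h1]; simp only [pow_succ, pow_zero, one_mul, mul_inv_rev, mul_assoc]
  have e3 : d3 = z ^ 3 * d * (z ^ 3)⁻¹ := by
    rw [h3, h2, h1]; simp only [pow_succ, pow_zero, one_mul, mul_inv_rev, mul_assoc]
  have e4 : d4 = z ^ 4 * d * (z ^ 4)⁻¹ := by
    rw [h4, h3, h2, h1]; simp only [pow_succ, pow_zero, one_mul, mul_inv_rev, mul_assoc]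
  have w0 : d ∈ W := by simpa using hmem 0 (by norm_num)
  have w1 : d1 ∈ W := by rw [e1]; exact hmem 1 (by norm_num)
  have w2 : d2 ∈ W := by rw [e2]; exact hmem 2 (by norm_num)
  have w3 : d3 ∈ W := by rw [e3]; exact hmem 3 (by norm_num)
  -- the commutators
  have cm : ∀ x y : G, x ∈ A → y ∈ A → (z * (x * y⁻¹) * z⁻¹) = (z * x * z⁻¹) * (z * y * z⁻¹)⁻¹ :=
    fun x y _ _ => by group
  have c1 : ⁅z, d⁆ = d1 * d⁻¹ := by rw [commutatorElement_def, h1]
  have k2 : ⁅z, d1 * d⁻¹⁆ = d2 * d * (d1 * d1)⁻¹ := by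
    rw [commutatorElement_def, cm d1 d a1 a0, ← h2, ← h1]
    have : d2 * d1⁻¹ * (d1 * d⁻¹)⁻¹ = d2 * (d1⁻¹ * (d * d1⁻¹)) := by group
    rw [this, hcom _ (A.inv_mem a1) _ (A.mul_mem a0 (A.inv_mem a1))]
    group
  have k3 : ⁅z, d2 * d * (d1 * d1)⁻¹⁆ = (d3 * d1 * (d2 * d2)⁻¹) * (d2 * d * (d1 * d1)⁻¹)⁻¹ := by
    rw [commutatorElement_def, h3]
    have : z * (d2 * d * (d1 * d1)⁻¹) * z⁻¹ =
      (z * d2 * z⁻¹) * (z * d * z⁻¹) * ((z * d1 * z⁻¹) * (z * d1 * z⁻¹))⁻¹ := by group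
    rw [this, ← h1, ← h2]
  have k4 : ⁅z, (d3 * d1 * (d2 * d2)⁻¹) * (d2 * d * (d1 * d1)⁻¹)⁻¹⁆ =
      ((d4 * d2 * (d3 * d3)⁻¹) * (d3 * d1 * (d2 * d2)⁻¹)⁻¹) *
        ((d3 * d1 * (d2 * d2)⁻¹) * (d2 * d * (d1 * d1)⁻¹)⁻¹)⁻¹ := by
    rw [commutatorElement_def, h4]
    have : z * ((d3 * d1 * (d2 * d2)⁻¹) * (d2 * d * (d1 * d1)⁻¹)⁻¹) * z⁻¹ =
      ((z * d3 * z⁻¹) * (z * d1 * z⁻¹) * ((z * d2 * z⁻¹) * (z * d2 * z⁻¹))⁻¹) *
        ((z * d2 * z⁻¹) * (z * d * z⁻¹) * ((z * d1 * z⁻¹) * (z * d1 * z⁻¹))⁻¹)⁻¹ := by group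
    rw [this, ← h1, ← h2, ← h3]
  rw [c1, k2, k3, k4, mul_inv_eq_one] at h
  have hU : (d4 * d2 * (d3 * d3)⁻¹) ∈ W := by
    have : (d4 * d2 * (d3 * d3)⁻¹) =
        ((d3 * d1 * (d2 * d2)⁻¹) * (d2 * d * (d1 * d1)⁻¹)⁻¹) * (d3 * d1 * (d2 * d2)⁻¹) := by
      rw [← h]; group
    rw [this]
    have w5 : d3 * d1 * (d2 * d2)⁻¹ ∈ W := W.mul_mem (W.mul_mem w3 w1) (W.inv_mem (W.mul_mem w2 w2))
    have w6 : d2 * d * (d1 * d1)⁻¹ ∈ W := W.mul_mem (W.mul_mem w2 w0) (W.inv_mem (W.mul_mem w1 w1))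
    exact W.mul_mem (W.mul_mem w5 (W.inv_mem w6)) w5
  have : z ^ 4 * d * (z ^ 4)⁻¹ = (d4 * d2 * (d3 * d3)⁻¹) * (d3 * d3) * d2⁻¹ := by
    rw [← e4]; group
  rw [this]
  exact W.mul_mem (W.mul_mem hU (W.mul_mem w3 w3)) (W.inv_mem w2)

/-- (1) Let `G` be a finite group, `S ≠ ∅` symmetric, and `N 0 ≤ N 1 ≤ ⋯ ≤ N k = G` subgroups such that
`N i` is normal in `N (i + 1)`, `N (i + 1)` is generated by `S ∩ N (i + 1)`, all factors are of one of
the four kinds of `Step`, and there is a path in `Cay(G, S)` which visits exactly the elements of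
`N 0`. Then there are `a_1, …, a_n ∈ S`, `n = |G|`, whose partial products
`a_1, a_1 a_2, …, a_1 ⋯ a_n` are pairwise distinct.

(2) This holds for all finite groups `G` with an abelian normal subgroup `A`, generated by a symmetric
set `S ⊆ A z ∪ A z⁻¹` with `z ∈ S`, if `A` is generated by four elements, or `[G : A] ≤ 4`, or
`[z, [z, [z, [z, d]]]] = 1` for all `d ∈ A` (for instance if `G` is nilpotent of class at most
four). -/
theorem result :
    (∀ {G : Type u} [Group G] [Finite G] (S : Set G), S.Nonempty → (∀ x ∈ S, x⁻¹ ∈ S) →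
      ∀ (k : ℕ) (N : ℕ → Subgroup G), HasPath S (N 0) → N k = ⊤ →
      (∀ i < k, ∀ x ∈ N (i + 1), ∀ n ∈ N i, x * n * x⁻¹ ∈ N i) →
      (∀ i < k, Subgroup.closure (S ∩ N (i + 1)) = N (i + 1)) →
      (∀ i < k, Step S (N i) (N (i + 1))) →
      ∃ a : Fin (Nat.card G) → G, (∀ i, a i ∈ S) ∧ Function.Injective
        (fun k : Fin (Nat.card G) => ((List.ofFn a).take (k.val + 1)).prod)) ∧
    (∀ {G : Type u} [Group G] [Finite G] (S : Set G), (∀ x ∈ S, x⁻¹ ∈ S) →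
      Subgroup.closure S = ⊤ → ∀ (A : Subgroup G) (z : G), A.Normal →
      (∀ a ∈ A, ∀ b ∈ A, a * b = b * a) → z ∈ S → (∀ s ∈ S, s * z⁻¹ ∈ A ∨ s * z ∈ A) →
      ((∃ T : Finset G, T.card ≤ 4 ∧ A = Subgroup.closure (T : Set G)) ∨ A.index ≤ 4 ∨
        (∀ d ∈ A, ⁅z, ⁅z, ⁅z, ⁅z, d⁆⁆⁆⁆ = 1) ∨
        (∃ h : Group.IsNilpotent G, Group.nilpotencyClass G ≤ 4)) →
      ∃ a : Fin (Nat.card G) → G, (∀ i, a i ∈ S) ∧ Function.Injective
        (fun k : Fin (Nat.card G) => ((List.ofFn a).take (k.val + 1)).prod)) := by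
  have tower : ∀ {G : Type u} [Group G] [Finite G] (S : Set G), S.Nonempty → (∀ x ∈ S, x⁻¹ ∈ S) →
      ∀ (k : ℕ) (N : ℕ → Subgroup G), HasPath S (N 0) → N k = ⊤ →
      (∀ i < k, ∀ x ∈ N (i + 1), ∀ n ∈ N i, x * n * x⁻¹ ∈ N i) →
      (∀ i < k, Subgroup.closure (S ∩ N (i + 1)) = N (i + 1)) →
      (∀ i < k, Step S (N i) (N (i + 1))) →
      ∃ a : Fin (Nat.card G) → G, (∀ i, a i ∈ S) ∧ Function.Injective
        (fun k : Fin (Nat.card G) => ((List.ofFn a).take (k.val + 1)).prod) := by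
    intro G _ _ S hne hS k N h0 hk hnorm hgen hstep
    have h : ∀ i ≤ k, HasPath S (N i) := by
      intro i
      induction i with
      | zero => intro _; exact h0
      | succ i ih =>
        intro hi
        exact step_path hS (hnorm i hi) (hgen i hi) (hstep i hi) (ih (by omega))
    have h1 := h k le_rfl
    rw [hk] at h1
    exact Run7.h251.HT.listing_of_path hne h1
  refine ⟨tower, ?_⟩
  intro G _ _ S hS hgen A z hA hcom hz hcos hdeg
  have hn : ∀ x : G, ∀ a ∈ A, x * a * x⁻¹ ∈ A := fun x a ha => hA.conj_mem a ha x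
  refine tower S ⟨z, hz⟩ hS 1 (fun i => if i = 0 then ⊥ else ⊤) ?_ (by simp) ?_ ?_ ?_
  · refine ⟨[1], List.nodup_singleton _, fun g => ?_, List.isChain_singleton _⟩
    rw [List.mem_singleton, if_pos rfl, Subgroup.mem_bot]
  · intro i hi x _ n hn
    obtain rfl : i = 0 := by omega
    simp only [if_pos, Subgroup.mem_bot] at hn ⊢
    rw [hn]; group
  · intro i hi
    obtain rfl : i = 0 := by omega
    simp only [zero_add, one_ne_zero, if_false, Subgroup.coe_top, Set.inter_univ]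
    exact hgen
  · intro i hi
    obtain rfl : i = 0 := by omega
    simp only [zero_add, one_ne_zero, if_false, if_pos]
    refine Step.twoCosets A ⟨bot_le, le_top, fun x _ a ha => hn x a ha, fun a ha b hb => ?_⟩ z hz
      trivial (fun s hs => Or.inr (hcos s hs.1)) ?_
    · rw [Subgroup.mem_bot, hcom a ha b hb]; group
    rcases hdeg with ⟨T, hT, hT'⟩ | h | h | ⟨hnil, h⟩
    · right; left
      exact ⟨T, hT, by rw [bot_sup_eq]; exact hT'⟩
    · left
      rwa [Subgroup.relIndex_top_right]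
    · right; right
      intro d hd _
      rw [bot_sup_eq]
      exact deg_of_comm hn hcom hd (h d hd)
    · right; right
      intro d hd _
      rw [bot_sup_eq]
      refine deg_of_comm hn hcom hd ?_
      have := hnil
      have hl : (⊤ : Subgroup G).lowerCentralSeries 4 = ⊥ :=
        Subgroup.lowerCentralSeries_eq_bot_iff_nilpotencyClass_le.2 h
      have hstep : ∀ (n : ℕ) (x : G), x ∈ (⊤ : Subgroup G).lowerCentralSeries n →
          ⁅z, x⁆ ∈ (⊤ : Subgroup G).lowerCentralSeries (n + 1) := by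
        intro n x hx
        have h6 : ⁅x, z⁆ ∈ ⁅(⊤ : Subgroup G).lowerCentralSeries n, (⊤ : Subgroup G)⁆ :=
          Subgroup.commutator_mem_commutator hx (Subgroup.mem_top z)
        have h7 : ⁅z, x⁆ = ⁅x, z⁆⁻¹ := (commutatorElement_inv x z).symm
        rw [h7, Subgroup.lowerCentralSeries_succ]
        exact Subgroup.inv_mem _ h6
      have h8 := hstep 3 _ (hstep 2 _ (hstep 1 _ (hstep 0 d (by simp))))
      rw [hl, Subgroup.mem_bot] at h8
      exact h8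

end Pool.Agent.Results.MP_688fd0_co.MixedTowers
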