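import Pool.Agent.Run7.h85.HC.Main

/-!
# Listing sequences for groups generated by two families of commuting involutions

Let the finite group `G` be generated by `A ∪ B`, where the elements of `A` commute with each other
and so do the elements of `B`, and where both `A` and `B` contain an element of order two. Suppose
that every `c ∈ A ∪ B` with `c² ≠ 1` commutes with at least two elements `≠ 1` of the subgroup
generated by the elements of `A ∪ B` of order two (for instance because the family containing `c`
has at least two elements of order two); so there is no condition if all elements of `A ∪ B` have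
order at most two. Then there is a closed listing sequence, whose terms are taken alternately from
`A ∪ A⁻¹` and from `B ∪ B⁻¹`.

This covers all finite quotients of the Coxeter groups with bipartite diagram, such as the
automorphism groups of the regular polytopes (the abstract ones as well) of every rank, with their
standard generators.

Idea of the proof: an alternating Hamiltonian cycle of `⟨a, b⟩` is extended to `G` by adding the
elements of `A ∪ B` one by one. If `H` has an alternating Hamiltonian cycle and `c ∈ A`, the cycles of
the left cosets of `H` in `⟨H, c⟩` are joined along squares `x, x c, x t c, x t` with `t ∈ A`; such a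
`t` exists at every vertex `x`, as the cycles are alternating, and the cycles stay alternating.
-/

set_option autoImplicit false

namespace Pool.Agent.Results.MP_688fd0_co.TwoCommutingFamilies

universe u

/-- Let `G` be a finite group generated by `A ∪ B`, where `x y = y x` for all `x, y ∈ A` and for all
`x, y ∈ B`, and let `a ∈ A` and `b ∈ B` have order two (`a = b` is allowed). Suppose that every
`c ∈ A ∪ B` with `c² ≠ 1` commutes with two distinct elements `x, y ≠ 1` of the subgroup generated by
the elements `z ∈ A ∪ B` with `z² = 1`. Then there are `s_0, …, s_{n-1} ∈ G`, `n = |G|`, such that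

* `s_i` is in `A` or inverse to an element of `A` for `i` even, and in `B` or inverse to an element of
  `B` for `i` odd;
* the partial products `s_0, s_0 s_1, …, s_0 ⋯ s_{n-1}` are pairwise distinct (so they are all the
  elements of `G`), and the last one is `1`. -/
theorem result {G : Type u} [Group G] [Finite G] (A B : Set G)
    (hA : ∀ x ∈ A, ∀ y ∈ A, x * y = y * x) (hB : ∀ x ∈ B, ∀ y ∈ B, x * y = y * x)
    (a b : G) (ha : a ∈ A) (ha1 : a ≠ 1) (ha2 : a * a = 1) (hb : b ∈ B) (hb1 : b ≠ 1)
    (hb2 : b * b = 1) (hgen : Subgroup.closure (A ∪ B) = ⊤)
    (h3 : ∀ c ∈ A ∪ B, c * c ≠ 1 → ∃ x y : G,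
      x ∈ Subgroup.closure {z | z ∈ A ∪ B ∧ z * z = 1} ∧
      y ∈ Subgroup.closure {z | z ∈ A ∪ B ∧ z * z = 1} ∧ x ≠ 1 ∧ y ≠ 1 ∧ x ≠ y ∧
      x * c = c * x ∧ y * c = c * y) :
    ∃ s : Fin (Nat.card G) → G,
      (∀ i, Even i.val → s i ∈ A ∨ (s i)⁻¹ ∈ A) ∧ (∀ i, ¬ Even i.val → s i ∈ B ∨ (s i)⁻¹ ∈ B) ∧
      Function.Injective (fun k : Fin (Nat.card G) => ((List.ofFn s).take (k.val + 1)).prod) ∧
      (List.ofFn s).prod = 1 := by
  haveI := Fintype.ofFinite G
  exact Run7.h85.HC.main hA hB ha ha1 ha2 hb hb1 hb2 hgen h3

end Pool.Agent.Results.MP_688fd0_co.TwoCommutingFamilies
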